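import Pool.Agent.W296.HK2

/-!
# The `k`-graph of a point set and convex layers

Definitions (in `Pool/Agent/W296/HL3.lean` and `HL4.lean`, namespace `Pool.Agent.W296.HL`):

* `GeneralPosition S`: no three distinct points of `S` on a common line,
* `peel S`: the points of `S` which lie in the convex hull of the other points of `S`
  (the vertices of the convex hull are removed),
* `layers S`: the least `m` with `peel^[m] S = ∅`, the number of convex layers.
-/

set_option autoImplicit false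

open Finset

namespace Pool.Agent.Results.MP_d308c3_co.ConvexLayers

open Pool.Agent.W296.HL

open scoped Classical

/-- the edges of the `k`-graph: the ordered pairs `(p, q)` of distinct points of `S` with exactly
`k` points of `S` to the right of the directed line from `p` to `q` -/
noncomputable def edges (S : Finset (ℝ × ℝ)) (k : ℕ) : Finset ((ℝ × ℝ) × (ℝ × ℝ)) :=
  (S ×ˢ S).filter (fun z => z.1 ≠ z.2 ∧
    #{x ∈ S | (z.2.1 - z.1.1) * (x.2 - z.1.2) - (z.2.2 - z.1.2) * (x.1 - z.1.1) < 0} = k)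

lemma mem_edges {S : Finset (ℝ × ℝ)} {k : ℕ} {z : (ℝ × ℝ) × (ℝ × ℝ)} :
    z ∈ edges S k ↔ (z.2, z.1) ∈ DD S k := by
  unfold edges
  rw [mem_DD, mem_filter, mem_product]
  have h := neg_card S z.1 z.2
  unfold cr at h
  unfold Ed cr
  rw [h]
  constructor
  · rintro ⟨⟨h1, h2⟩, h3, h4⟩
    exact ⟨h2, h1, h3.symm, h4⟩
  · rintro ⟨h1, h2, h3, h4⟩
    exact ⟨⟨h2, h1⟩, h3.symm, h4⟩

lemma card_edges (S : Finset (ℝ × ℝ)) (k : ℕ) : #(edges S k) = #(DD S k) := by
  refine card_bij' (fun z _ => (z.2, z.1)) (fun z _ => (z.2, z.1)) ?_ ?_ ?_ ?_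
  · intro z hz; exact mem_edges.mp hz
  · intro z hz; exact mem_edges.mpr hz
  · intro z _; rfl
  · intro z _; rfl

/-- Upper bounds, uniform in `k`, for the number of edges of the `k`-graph of a set in general
position (for `|S| = 2n`, `k = n - 1` this is twice the number of halving lines):
1. by the convex layers (refined form, and `(2 m - 1) |S|`);
2. for every `ε > 0`: `o(|S| ^ (1 + ε))` for the sets with at most `|S| ^ (ε / 2)` convex layers;
3. by a ranking `r` of the points such that every `p` is a vertex of the convex hull of the points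
   of rank at least `r p`;
4. if all but `#B` points are in convex position;
5. the edges with exactly one end in a convex set `K`. -/
theorem result :
    (∀ S : Finset (ℝ × ℝ), GeneralPosition S → ∀ k : ℕ,
      #(edges S k) ≤ #S + 2 * ∑ j ∈ range (layers S), (#S - #(peel^[j] S)) ∧
      #(edges S k) + #S ≤ 2 * layers S * #S) ∧
    (∀ ε : ℝ, 0 < ε → ∀ δ : ℝ, 0 < δ → ∃ N : ℕ, ∀ S : Finset (ℝ × ℝ), N ≤ #S →
      GeneralPosition S → (layers S : ℝ) ≤ (#S : ℝ) ^ (ε / 2) → ∀ k : ℕ,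
      (#(edges S k) : ℝ) ≤ δ * (#S : ℝ) ^ (1 + ε)) ∧
    (∀ S : Finset (ℝ × ℝ), GeneralPosition S → ∀ (k m : ℕ) (r : ℝ × ℝ → ℕ),
      (∀ p ∈ S, r p ≤ m) →
      (∀ p ∈ S, p ∉ convexHull ℝ {q : ℝ × ℝ | q ∈ S ∧ r p ≤ r q ∧ q ≠ p}) →
      #(edges S k) ≤ ∑ p ∈ S, (2 * (m - r p) + 1)) ∧
    (∀ A B : Finset (ℝ × ℝ), GeneralPosition (A ∪ B) → Disjoint A B →
      (∀ p ∈ A, p ∉ convexHull ℝ ((A : Set (ℝ × ℝ)) \ {p})) → ∀ k : ℕ,
      #(edges (A ∪ B) k) ≤ (2 * #B + 1) * #(A ∪ B)) ∧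
    (∀ S : Finset (ℝ × ℝ), GeneralPosition S → ∀ (k : ℕ) (K : Set (ℝ × ℝ)), Convex ℝ K →
      #{z ∈ edges S k | ¬ (z.1 ∈ K ↔ z.2 ∈ K)} ≤ 2 * #{p ∈ S | p ∉ K}) := by
  refine ⟨?_, ?_, ?_, ?_, ?_⟩
  · intro S hS k
    rw [card_edges]
    exact layer_bound_k (gen_of_gp hS) k
  · intro ε hε δ hδ
    have ht : Filter.Tendsto (fun n : ℕ => (n : ℝ) ^ (ε / 2)) Filter.atTop Filter.atTop :=
      (tendsto_rpow_atTop (by linarith)).comp tendsto_natCast_atTop_atTop
    obtain ⟨N, hN⟩ := (ht.eventually_ge_atTop (2 / δ)).exists_forall_of_atTop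
    refine ⟨N + 1, fun S hSN hS hl k => ?_⟩
    rw [card_edges]
    have h1 := (layer_bound_k (gen_of_gp hS) k).2
    have h2 : (#(DD S k) : ℝ) ≤ 2 * layers S * #S := by
      have : #(DD S k) ≤ 2 * layers S * #S := by omega
      exact_mod_cast this
    have h3 := hN #S (by omega)
    have hn : (0 : ℝ) < #S := by
      have : 0 < #S := by omega
      exact_mod_cast this
    rw [div_le_iff₀ hδ] at h3
    have h4 : (#S : ℝ) ^ (1 + ε) = #S * (#S : ℝ) ^ (ε / 2) * (#S : ℝ) ^ (ε / 2) := by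
      rw [Real.rpow_add hn, Real.rpow_one, mul_assoc, ← Real.rpow_add hn]
      congr 2; ring
    have h5 : (0 : ℝ) < (#S : ℝ) ^ (ε / 2) := Real.rpow_pos_of_pos hn _
    rw [h4]
    calc (#(DD S k) : ℝ) ≤ 2 * layers S * #S := h2
      _ ≤ 2 * (#S : ℝ) ^ (ε / 2) * #S := by gcongr
      _ ≤ ((#S : ℝ) ^ (ε / 2) * δ) * (#S : ℝ) ^ (ε / 2) * #S := by gcongr
      _ = δ * (#S * (#S : ℝ) ^ (ε / 2) * (#S : ℝ) ^ (ε / 2)) := by ring
  · intro S hS k m r h1 h2
    rw [card_edges]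
    exact ranking_k (gen_of_gp hS) k m r h1 h2
  · intro A B hS hd hA k
    rw [card_edges]
    exact almost_convex_k k (gen_of_gp hS) hd hA
  · intro S hS k K hK
    have h := cut_k (gen_of_gp hS) k hK
    refine le_trans (le_of_eq ?_) h
    refine card_bij' (fun z _ => (z.2, z.1)) (fun z _ => (z.2, z.1)) ?_ ?_ ?_ ?_
    · intro z hz
      rw [mem_filter] at hz ⊢
      exact ⟨mem_edges.mp hz.1, fun h => hz.2 ⟨h.2, h.1⟩⟩
    · intro z hz
      rw [mem_filter] at hz ⊢
      exact ⟨mem_edges.mpr hz.1, fun h => hz.2 ⟨h.2, h.1⟩⟩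
    · intro z _; rfl
    · intro z _; rfl

end Pool.Agent.Results.MP_d308c3_co.ConvexLayers
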